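import Mathlib

/-!
# Thue chromatic number of lexicographic products (MP_35dbbb_co)

The inequality `π(H) + (π(G)-1)|V(H)| ≤ π(G[H])` fails for `G = C_7` and `H` the edgeless graph on
two vertices.
-/

namespace Pool.Agent.Results.MP_35dbbb_co.ThueLex

/-- A colouring is nonrepetitive if no path `l₁ ++ l₂` of the graph (a list of distinct vertices,
consecutive ones adjacent), with `l₁` nonempty, has the same colour sequence on both halves. -/
def Nonrepetitive {V C : Type} (G : SimpleGraph V) (c : V → C) : Prop :=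
  ∀ l₁ l₂ : List V, l₁ ≠ [] → (l₁ ++ l₂).Nodup → (l₁ ++ l₂).IsChain G.Adj →
    l₁.map c ≠ l₂.map c

/-- Thue chromatic number. -/
noncomputable def thue {V : Type} (G : SimpleGraph V) : ℕ :=
  sInf {k | ∃ c : V → Fin k, Nonrepetitive G c}

/-- Lexicographic product `G[H]`. -/
def lex {V W : Type} (G : SimpleGraph V) (H : SimpleGraph W) : SimpleGraph (V × W) where
  Adj p q := G.Adj p.1 q.1 ∨ (p.1 = q.1 ∧ H.Adj p.2 q.2)
  symm := ⟨fun _ _ h => h.elim (fun h => Or.inl h.symm) fun h => Or.inr ⟨h.1.symm, h.2.symm⟩⟩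
  loopless := ⟨fun _ h => h.elim (fun h => h.ne rfl) fun h => h.2.ne rfl⟩

/-! ### A search procedure for repetitions -/

section search

variable {V : Type} [DecidableEq V]

/-- depth-first search for a repetition extending the pair `(a, b)` -/
def srch (adj : V → V → Bool) (col : V → ℕ) (vs : List V) : ℕ → V → V → V → List V → Bool
  | 0, b1, a, _, _ => adj a b1
  | f + 1, b1, a, b, used => adj a b1 || vs.any fun x => adj a x && !(decide (x ∈ used)) &&
      vs.any fun y => adj b y && decide (col x = col y) && !(decide (y ∈ used)) &&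
        !(decide (x = y)) && srch adj col vs f b1 x y (x :: y :: used)

theorem srch_sound (adj : V → V → Bool) (col : V → ℕ) (vs : List V) (hvs : ∀ v, v ∈ vs) :
    ∀ (l₁ l₂ : List V) (f : ℕ) (b1 a b : V) (used : List V), l₁.length ≤ f →
      l₁.map col = l₂.map col → (a :: l₁).IsChain (fun u v => adj u v = true) →
      (b :: l₂).IsChain (fun u v => adj u v = true) →
      adj ((a :: l₁).getLast (by simp)) b1 = true →
      (∀ v ∈ l₁, v ∉ used) → (∀ v ∈ l₂, v ∉ used) → (l₁ ++ l₂).Nodup →
      srch adj col vs f b1 a b used = true := by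
  intro l₁
  induction l₁ with
  | nil =>
    intro l₂ f b1 a b used _ _ _ _ hlast _ _ _
    simp only [List.getLast_singleton] at hlast
    cases f <;> simp [srch, hlast]
  | cons x l₁ ih =>
    intro l₂ f b1 a b used hf hmap hc1 hc2 hlast hu1 hu2 hnd
    cases l₂ with
    | nil => simp at hmap
    | cons y l₂ =>
      cases f with
      | zero => simp at hf
      | succ f =>
        simp only [List.map_cons, List.cons.injEq] at hmap
        rw [List.isChain_cons_cons] at hc1 hc2
        have hnd' : (l₁ ++ l₂).Nodup := by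
          refine hnd.sublist ?_
          simp only [List.cons_append]
          exact (List.Sublist.append (List.Sublist.refl _) (List.sublist_cons_self _ _)).cons _
        have hxy : x ≠ y := by
          rintro rfl
          simp at hnd
        have hx1 : x ∉ l₁ ∧ x ∉ l₂ := by
          simp only [List.cons_append, List.nodup_cons, List.mem_append, List.mem_cons] at hnd
          tauto
        have hy1 : y ∉ l₁ ∧ y ∉ l₂ := by
          have h := List.nodup_append.1 hnd
          refine ⟨fun h1 => ?_, (List.nodup_cons.1 h.2.1).1⟩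
          exact h.2.2 y (List.mem_cons_of_mem _ h1) y (List.mem_cons_self) rfl
        have key : srch adj col vs f b1 x y (x :: y :: used) = true := by
          apply ih l₂ f b1 x y (x :: y :: used) (by simpa using hf) hmap.2 hc1.2 hc2.2
          · simpa [List.getLast_cons] using hlast
          · intro v hv
            simp only [List.mem_cons, not_or]
            refine ⟨?_, ?_, hu1 v (List.mem_cons_of_mem _ hv)⟩
            · rintro rfl; exact hx1.1 hv
            · rintro rfl; exact hy1.1 hv
          · intro v hv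
            simp only [List.mem_cons, not_or]
            refine ⟨?_, ?_, hu2 v (List.mem_cons_of_mem _ hv)⟩
            · rintro rfl; exact hx1.2 hv
            · rintro rfl; exact hy1.2 hv
          · exact hnd'
        rw [srch, Bool.or_eq_true]
        right
        rw [List.any_eq_true]
        refine ⟨x, hvs x, ?_⟩
        rw [Bool.and_eq_true, Bool.and_eq_true, List.any_eq_true]
        refine ⟨⟨hc1.1, by simpa using hu1 x (List.mem_cons_self)⟩, y, hvs y, ?_⟩
        simp only [Bool.and_eq_true]
        exact ⟨⟨⟨⟨hc2.1, by simpa using hmap.1⟩, by simpa using hu2 y (List.mem_cons_self)⟩,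
          by simpa using hxy⟩, key⟩

theorem nonrep_of_srch [Fintype V] (G : SimpleGraph V) (adj : V → V → Bool)
    (hadj : ∀ u v, G.Adj u v → adj u v = true) {k : ℕ} (c : V → Fin k) (vs : List V)
    (hvs : ∀ v, v ∈ vs) (f : ℕ) (hf : Fintype.card V ≤ 2 * f)
    (h : ∀ a b, a ≠ b → (c a : ℕ) = c b → srch adj (fun v => (c v : ℕ)) vs f b a b [a, b] = false) :
    Nonrepetitive G c := by
  intro l₁ l₂ hne hnd hch hmap
  cases l₁ with
  | nil => exact hne rfl
  | cons a l₁ =>
    cases l₂ with
    | nil => simp at hmap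
    | cons b l₂ =>
      simp only [List.map_cons, List.cons.injEq] at hmap
      have hlen : l₁.length = l₂.length := by
        simpa using congrArg List.length hmap.2
      have hcard := hnd.length_le_card
      simp only [List.length_append, List.length_cons] at hcard
      have hch' : ((a :: l₁) ++ (b :: l₂)).IsChain (fun u v => adj u v = true) :=
        hch.imp hadj
      rw [List.isChain_append] at hch'
      obtain ⟨hc1, hc2, hlast⟩ := hch'
      have hab : a ≠ b := by
        rintro rfl
        simp at hnd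
      have hnd1 := List.nodup_append.1 hnd
      have h1 := List.nodup_cons.1 hnd1.1
      have h2 := List.nodup_cons.1 hnd1.2.1
      have := srch_sound adj (fun v => (c v : ℕ)) vs hvs l₁ l₂ f b a b [a, b] (by omega)
        (by
          have := congrArg (List.map (fun x : Fin k => (x : ℕ))) hmap.2
          simpa [List.map_map, Function.comp_def] using this)
        hc1 hc2 (hlast _ (by simp [List.getLast?_eq_some_getLast]) b (by simp))
        (by
          intro v hv
          simp only [List.mem_cons, List.not_mem_nil, or_false, not_or]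
          refine ⟨?_, ?_⟩
          · rintro rfl; exact h1.1 hv
          · rintro rfl
            exact hnd1.2.2 v (List.mem_cons_of_mem _ hv) v List.mem_cons_self rfl)
        (by
          intro v hv
          simp only [List.mem_cons, List.not_mem_nil, or_false, not_or]
          refine ⟨?_, ?_⟩
          · rintro rfl
            exact hnd1.2.2 v List.mem_cons_self v (List.mem_cons_of_mem _ hv) rfl
          · rintro rfl; exact h2.1 hv)
        (by
          refine hnd.sublist ?_
          exact List.Sublist.append (List.sublist_cons_self _ _) (List.sublist_cons_self _ _))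
      rw [h a b hab (by rw [hmap.1])] at this
      exact Bool.noConfusion this

end search

/-! ### The counterexample -/

/-- the graph `C_7[2K_1]` -/
abbrev L : SimpleGraph (Fin 7 × Fin 2) := lex (SimpleGraph.cycleGraph 7) (⊥ : SimpleGraph (Fin 2))

/-- boolean adjacency -/
def adjB (p q : Fin 7 × Fin 2) : Bool := decide (q.1 = p.1 + 1) || decide (p.1 = q.1 + 1)

/-- the 6-colouring of `C_7[2K_1]` -/
def col (p : Fin 7 × Fin 2) : Fin 6 :=
  (![![5, 5], ![4, 3], ![5, 5], ![2, 1], ![4, 3], ![1, 1], ![2, 0]] :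
    Fin 7 → Fin 2 → Fin 6) p.1 p.2

/-- list of all vertices -/
def vlist : List (Fin 7 × Fin 2) :=
  [(0,0),(0,1),(1,0),(1,1),(2,0),(2,1),(3,0),(3,1),(4,0),(4,1),(5,0),(5,1),(6,0),(6,1)]

theorem adj_ok : ∀ u v : Fin 7, (SimpleGraph.cycleGraph 7).Adj u v → v = u + 1 ∨ u = v + 1 := by
  decide

theorem col_ok : ∀ a b : Fin 7 × Fin 2, a ≠ b → (col a : ℕ) = col b →
    srch adjB (fun v => (col v : ℕ)) vlist 7 b a b [a, b] = false := by
  decide +kernel

theorem col_nonrep : Nonrepetitive L col := by
  refine nonrep_of_srch L adjB ?_ col vlist (by decide) 7 (by simp) col_ok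
  intro u v h
  rcases h with h | h
  · have := adj_ok _ _ h
    simpa [adjB] using this
  · exact absurd h.2 (by simp)

theorem thue_L : thue L ≤ 6 := Nat.sInf_le ⟨col, col_nonrep⟩

theorem rep_dec : ∀ c0 c1 c2 c3 c4 c5 c6 : Fin 3, ∃ s : Fin 7,
    (![c0, c1, c2, c3, c4, c5, c6] s = ![c0, c1, c2, c3, c4, c5, c6] (s + 1)) ∨
    (![c0, c1, c2, c3, c4, c5, c6] s = ![c0, c1, c2, c3, c4, c5, c6] (s + 2) ∧
      ![c0, c1, c2, c3, c4, c5, c6] (s + 1) = ![c0, c1, c2, c3, c4, c5, c6] (s + 3)) ∨
    (![c0, c1, c2, c3, c4, c5, c6] s = ![c0, c1, c2, c3, c4, c5, c6] (s + 3) ∧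
      ![c0, c1, c2, c3, c4, c5, c6] (s + 1) = ![c0, c1, c2, c3, c4, c5, c6] (s + 4) ∧
      ![c0, c1, c2, c3, c4, c5, c6] (s + 2) = ![c0, c1, c2, c3, c4, c5, c6] (s + 5)) := by
  decide +kernel

theorem C7_three (c : Fin 7 → Fin 3) : ¬ Nonrepetitive (SimpleGraph.cycleGraph 7) c := by
  intro h
  have hc : ![c 0, c 1, c 2, c 3, c 4, c 5, c 6] = c := by
    funext v
    fin_cases v <;> rfl
  have := rep_dec (c 0) (c 1) (c 2) (c 3) (c 4) (c 5) (c 6)
  rw [hc] at this
  obtain ⟨s, hs⟩ := this
  have n1 : ∀ s : Fin 7, ([s] ++ [s + 1]).Nodup ∧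
      ([s] ++ [s + 1]).IsChain (SimpleGraph.cycleGraph 7).Adj := by decide
  have n2 : ∀ s : Fin 7, ([s, s + 1] ++ [s + 2, s + 3]).Nodup ∧
      ([s, s + 1] ++ [s + 2, s + 3]).IsChain (SimpleGraph.cycleGraph 7).Adj := by decide
  have n3 : ∀ s : Fin 7, ([s, s + 1, s + 2] ++ [s + 3, s + 4, s + 5]).Nodup ∧
      ([s, s + 1, s + 2] ++ [s + 3, s + 4, s + 5]).IsChain (SimpleGraph.cycleGraph 7).Adj := by
    decide
  rcases hs with h1 | ⟨h1, h2⟩ | ⟨h1, h2, h3⟩
  · exact h [s] [s + 1] (by simp) (n1 s).1 (n1 s).2 (by simp [h1])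
  · exact h [s, s + 1] [s + 2, s + 3] (by simp) (n2 s).1 (n2 s).2 (by simp [h1, h2])
  · exact h [s, s + 1, s + 2] [s + 3, s + 4, s + 5] (by simp) (n3 s).1 (n3 s).2
      (by simp [h1, h2, h3])

theorem nonrep_mono {V C D : Type} (G : SimpleGraph V) (c : V → C) (f : C → D)
    (hf : Function.Injective f) (h : Nonrepetitive G c) : Nonrepetitive G (f ∘ c) := by
  intro l₁ l₂ h1 h2 h3 h4
  refine h l₁ l₂ h1 h2 h3 ?_
  rw [← List.map_map, ← List.map_map] at h4
  exact List.map_injective_iff.2 hf h4

theorem nonrep_injective {V C : Type} (G : SimpleGraph V) (c : V → C)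
    (hc : Function.Injective c) : Nonrepetitive G c := by
  intro l₁ l₂ h1 h2 _ h4
  have := List.map_injective_iff.2 hc h4
  subst this
  cases l₁ with
  | nil => exact h1 rfl
  | cons a l => simp at h2

theorem thue_C7 : 4 ≤ thue (SimpleGraph.cycleGraph 7) := by
  by_contra hlt
  push Not at hlt
  have hne : {k | ∃ c : Fin 7 → Fin k, Nonrepetitive (SimpleGraph.cycleGraph 7) c}.Nonempty :=
    ⟨7, id, nonrep_injective _ _ Function.injective_id⟩
  obtain ⟨c, hc⟩ := Nat.sInf_mem hne
  have h3 : sInf {k | ∃ c : Fin 7 → Fin k, Nonrepetitive (SimpleGraph.cycleGraph 7) c} ≤ 3 := by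
    unfold thue at hlt
    omega
  exact C7_three _ (nonrep_mono _ c (Fin.castLE h3) (Fin.castLE_injective h3) hc)

theorem thue_E2 : 1 ≤ thue (⊥ : SimpleGraph (Fin 2)) := by
  by_contra hlt
  have h0 : thue (⊥ : SimpleGraph (Fin 2)) = 0 := by omega
  have hne : {k | ∃ c : Fin 2 → Fin k, Nonrepetitive (⊥ : SimpleGraph (Fin 2)) c}.Nonempty :=
    ⟨2, id, nonrep_injective _ _ Function.injective_id⟩
  obtain ⟨c, _⟩ := Nat.sInf_mem hne
  have h1 := (c 0).2
  unfold thue at h0
  omega

/-- The lower bound `π(H) + (π(G)-1)|V(H)| ≤ π(G[H])` fails for `G = C_7` and `H` the edgeless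
graph on two vertices. -/
theorem result :
    thue (lex (SimpleGraph.cycleGraph 7) (⊥ : SimpleGraph (Fin 2))) <
      thue (⊥ : SimpleGraph (Fin 2)) + (thue (SimpleGraph.cycleGraph 7) - 1) * 2 ∧
    ¬ ∀ (m n : ℕ) (G : SimpleGraph (Fin m)) (H : SimpleGraph (Fin n)),
      thue H + thue G * n ≤ thue (lex G H) + n := by
  have h1 : thue (lex (SimpleGraph.cycleGraph 7) (⊥ : SimpleGraph (Fin 2))) ≤ 6 := thue_L
  have h2 := thue_C7
  have h3 := thue_E2
  refine ⟨by omega, fun h => ?_⟩
  have := h 7 2 (SimpleGraph.cycleGraph 7) ⊥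
  omega

end Pool.Agent.Results.MP_35dbbb_co.ThueLex
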